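import Pool.Agent.H516.PCF.All

/-!
# PCF HARM (helper516): roots in a closed disc counted by open discs
-/

set_option autoImplicit false

namespace Pool.Agent.H100.PCF

open Polynomial Pool.Agent.H516.PCF

theorem harm (hNAB : S_NAB) : S_HARM := by
  classical
  intro F _ _ _ p w hp hw U V a ρ h
  obtain ⟨-, -, -, -, -, hsymm, -, htri, -, -, -, -⟩ := hNAB F p w hp hw
  -- the relation
  have hr : Equivalence (fun b z : F => z = b ∨ ρ < w (b - z)) := by
    refine ⟨fun z => Or.inl rfl, ?_, ?_⟩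
    · intro x y hxy
      by_cases e : x = y
      · exact Or.inl e
      · rcases hxy with h1 | h1
        · exact Or.inl h1.symm
        · refine Or.inr ?_
          rwa [hsymm y x (Ne.symm e)]
    · intro x y z hxy hyz
      by_cases e1 : x = y
      · rw [e1]
        exact hyz
      by_cases e2 : y = z
      · rw [← e2]
        exact hxy
      by_cases e3 : z = x
      · exact Or.inl e3
      rcases hxy with h1 | h1
      · exact absurd h1.symm e1
      rcases hyz with h2 | h2
      · exact absurd h2.symm e2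
      exact Or.inr ((lt_min h1 h2).trans_le (htri x y z e1 e2 (Ne.symm e3)))
  let s : Setoid F := ⟨fun b z : F => z = b ∨ ρ < w (b - z), hr⟩
  let f : F → Quotient s := fun z => Quotient.mk s z
  have hf : ∀ b z : F, f b = f z ↔ (z = b ∨ ρ < w (b - z)) := fun b z => Quotient.eq (r := s)
  let D : F → Prop := fun z => z = a ∨ ρ ≤ w (a - z)
  have hD : ∀ b, D b → ∀ z, (z = b ∨ ρ < w (b - z)) → D z := by
    intro b hb z hz
    by_cases e1 : b = z
    · rw [← e1]
      exact hb
    by_cases e2 : z = a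
    · exact Or.inl e2
    rcases hz with h1 | h1
    · exact absurd h1.symm e1
    rcases hb with h2 | h2
    · rw [h2] at h1
      exact Or.inr h1.le
    by_cases e3 : a = b
    · rw [← e3] at h1
      exact Or.inr h1.le
    exact Or.inr ((le_min h2 h1.le).trans (htri a b z e3 e1 (Ne.symm e2)))
  have hcnt : ∀ (W : F[X]) (b : F), D b →
      Multiset.count (f b) ((W.roots.filter D).map f) = cnt w W b ρ := by
    intro W b hb
    rw [Multiset.count_map, Multiset.filter_filter]
    unfold cnt
    congr 1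
    refine Multiset.filter_congr fun z _ => ?_
    rw [hf b z]
    exact ⟨fun h1 => h1.1, fun h1 => ⟨h1, hD b hb z h1⟩⟩
  have hccnt : ∀ (W : F[X]) (T : Finset (Quotient s)), (∀ z ∈ W.roots, D z → f z ∈ T) →
      ccnt w W a ρ = ∑ q ∈ T, Multiset.count q ((W.roots.filter D).map f) := by
    intro W T hT
    have h1 : ∑ q ∈ T, Multiset.count q ((W.roots.filter D).map f) =
        Multiset.card ((W.roots.filter D).map f) := by
      refine Multiset.sum_count_eq_card fun q hq => ?_
      obtain ⟨z, hz, rfl⟩ := Multiset.mem_map.1 hq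
      rw [Multiset.mem_filter] at hz
      exact hT z hz.1 hz.2
    rw [h1, Multiset.card_map]
    unfold ccnt
    congr 1
  -- the classes
  let T₀ : Finset (Quotient s) := (((U.roots + V.roots).filter D).map f).toFinset
  have hT₀ : ∀ q ∈ T₀, ∃ b, D b ∧ q = f b := by
    intro q hq
    obtain ⟨z, hz, rfl⟩ := Multiset.mem_map.1 (Multiset.mem_toFinset.1 hq)
    exact ⟨z, (Multiset.mem_filter.1 hz).2, rfl⟩
  have hU₀ : ∀ z ∈ U.roots, D z → f z ∈ T₀ := fun z hz hDz => Multiset.mem_toFinset.2
    (Multiset.mem_map.2 ⟨z, Multiset.mem_filter.2 ⟨Multiset.mem_add.2 (Or.inl hz), hDz⟩, rfl⟩)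
  have hV₀ : ∀ z ∈ V.roots, D z → f z ∈ T₀ := fun z hz hDz => Multiset.mem_toFinset.2
    (Multiset.mem_map.2 ⟨z, Multiset.mem_filter.2 ⟨Multiset.mem_add.2 (Or.inr hz), hDz⟩, rfl⟩)
  constructor
  · rw [hccnt U T₀ hU₀, hccnt V T₀ hV₀]
    refine Finset.sum_le_sum fun q hq => ?_
    obtain ⟨b, hb, rfl⟩ := hT₀ q hq
    rw [hcnt U b hb, hcnt V b hb]
    exact h b hb
  · intro b₀ hb₀ hlt
    rw [hccnt U (insert (f b₀) T₀) (fun z hz hDz => Finset.mem_insert_of_mem (hU₀ z hz hDz)),
      hccnt V (insert (f b₀) T₀) (fun z hz hDz => Finset.mem_insert_of_mem (hV₀ z hz hDz))]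
    refine Finset.sum_lt_sum (fun q hq => ?_) ⟨f b₀, Finset.mem_insert_self _ _, ?_⟩
    · rcases Finset.mem_insert.1 hq with rfl | hq
      · rw [hcnt U b₀ hb₀, hcnt V b₀ hb₀]
        exact hlt.le
      · obtain ⟨b, hb, rfl⟩ := hT₀ q hq
        rw [hcnt U b hb, hcnt V b hb]
        exact h b hb
    · rw [hcnt U b₀ hb₀, hcnt V b₀ hb₀]
      exact hlt

end Pool.Agent.H100.PCF
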